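import Pool.Agent.H15.TB1.M90
import Pool.Agent.H15.TB1.M98

/-!
Sums of the Möbius function over almost all windows of every length `3 ≤ H ≤ X`: outside a set of
`x ∈ [X, 2X]` of measure at most `X / (log X)^A` the sum is `O_A(H log log X / log H)`; and the
variance `V(X;H)` is `O(H ^ 2 (log log X / log H) ^ 2)`.
-/

set_option autoImplicit false

namespace Pool.Agent.Results.MP_0575cc_nt.AlmostAllWindows

open MeasureTheory

/-- `M x H` is the sum of `μ(n)` over the integers `n` with `|n - x| < H / 2`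
(written exactly as in the frozen statement S15903). -/
noncomputable def M (x H : ℝ) : ℝ :=
  ∑ n ∈ (Finset.range (⌈x + H⌉₊ + 1)).filter (fun n : ℕ => |(n : ℝ) - x| < H / 2),
    ((ArithmeticFunction.moebius n : ℤ) : ℝ)

/-- The variance `V(X;H) = (1/X) ∫_X^{2X} M(x;H)^2 dx`. -/
noncomputable def V (X H : ℝ) : ℝ := (1 / X) * ∫ x in X..2 * X, (M x H) ^ 2

/-- The trivial bound: a window of length `H` has at most `2 H` integers if `H ≥ 1`. -/
theorem abs_M_le (x H : ℝ) (hH : 1 ≤ H) : |M x H| ≤ 2 * H := by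
  have h1 : |M x H| ≤ (((Finset.range (⌈x + H⌉₊ + 1)).filter
      (fun n : ℕ => |(n : ℝ) - x| < H / 2)).card : ℝ) := by
    unfold M
    refine (Finset.abs_sum_le_sum_abs _ _).trans ?_
    rw [Finset.card_eq_sum_ones, Nat.cast_sum]
    refine Finset.sum_le_sum fun n _ => ?_
    have := ArithmeticFunction.abs_moebius_le_one (n := n)
    have h2 : ((|ArithmeticFunction.moebius n| : ℤ) : ℝ) ≤ ((1 : ℤ) : ℝ) := by exact_mod_cast this
    simpa using h2
  refine h1.trans ?_
  -- the filter is contained in an interval of integers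
  have hsub : (((Finset.range (⌈x + H⌉₊ + 1)).filter
      (fun n : ℕ => |(n : ℝ) - x| < H / 2)).image (fun n : ℕ => (n : ℤ))) ⊆
      Finset.Ioc (⌈x - H / 2⌉ - 1) ⌊x + H / 2⌋ := by
    intro z hz
    rw [Finset.mem_image] at hz
    obtain ⟨n, hn, rfl⟩ := hz
    rw [Finset.mem_filter] at hn
    have := abs_lt.1 hn.2
    rw [Finset.mem_Ioc]
    constructor
    · have : ⌈x - H / 2⌉ ≤ (n : ℤ) := by
        rw [Int.ceil_le]; push_cast; linarith
      omega
    · rw [Int.le_floor]; push_cast; linarith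
  have hcard : (((Finset.range (⌈x + H⌉₊ + 1)).filter
      (fun n : ℕ => |(n : ℝ) - x| < H / 2)).card : ℤ) ≤ ⌊x + H / 2⌋ - (⌈x - H / 2⌉ - 1) ∨
      (((Finset.range (⌈x + H⌉₊ + 1)).filter
      (fun n : ℕ => |(n : ℝ) - x| < H / 2)).card : ℤ) ≤ 0 := by
    have h3 := Finset.card_le_card hsub
    rw [Finset.card_image_of_injective _ (fun a b h => by exact_mod_cast h), Int.card_Ioc] at h3
    omega
  rcases hcard with h | h
  · have h4 : ((((Finset.range (⌈x + H⌉₊ + 1)).filter
      (fun n : ℕ => |(n : ℝ) - x| < H / 2)).card : ℤ) : ℝ) ≤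
        ((⌊x + H / 2⌋ - (⌈x - H / 2⌉ - 1) : ℤ) : ℝ) := by exact_mod_cast h
    push_cast at h4
    have h5 := Int.floor_le (x + H / 2)
    have h6 := Int.le_ceil (x - H / 2)
    linarith
  · have h4 : ((((Finset.range (⌈x + H⌉₊ + 1)).filter
      (fun n : ℕ => |(n : ℝ) - x| < H / 2)).card : ℤ) : ℝ) ≤ ((0 : ℤ) : ℝ) := by exact_mod_cast h
    push_cast at h4
    linarith

/-- A mean square over `[X, 2X]` from an exceptional set and a uniform bound. -/
theorem mean_sq (f : ℝ → ℝ) (X a b e : ℝ) (hX : 0 < X) (ha : 0 ≤ a) (he : 0 ≤ e)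
    (hb : ∀ x, |f x| ≤ b)
    (hS : volume {x : ℝ | X ≤ x ∧ x ≤ 2 * X ∧ a < |f x|} ≤ ENNReal.ofReal e) :
    ∫ x in X..2 * X, (f x) ^ 2 ≤ X * a ^ 2 + b ^ 2 * e := by
  set S : Set ℝ := {x : ℝ | X ≤ x ∧ x ≤ 2 * X ∧ a < |f x|} with hSdef
  set T : Set ℝ := toMeasurable volume S with hTdef
  have hTm : MeasurableSet T := measurableSet_toMeasurable _ _
  have hTv : volume T ≤ ENNReal.ofReal e := by rw [hTdef, measure_toMeasurable]; exact hS
  have hTfin : volume T ≠ ⊤ := ne_top_of_le_ne_top ENNReal.ofReal_ne_top hTv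
  have hXX : X ≤ 2 * X := by linarith
  rw [intervalIntegral.integral_of_le hXX]
  have hvol : volume (Set.Ioc X (2 * X)) ≠ ⊤ := by simp
  have hind : IntegrableOn (T.indicator fun _ => b ^ 2) (Set.Ioc X (2 * X)) := by
    refine Integrable.indicator ?_ hTm
    exact integrableOn_const hvol
  have hcst : IntegrableOn (fun _ : ℝ => a ^ 2) (Set.Ioc X (2 * X)) := integrableOn_const hvol
  have hg : IntegrableOn (fun x => a ^ 2 + T.indicator (fun _ => b ^ 2) x)
      (Set.Ioc X (2 * X)) :=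
    hcst.add hind
  have hle : ∫ x in Set.Ioc X (2 * X), (f x) ^ 2 ≤
      ∫ x in Set.Ioc X (2 * X), (a ^ 2 + T.indicator (fun _ => b ^ 2) x) := by
    refine integral_mono_of_nonneg (Filter.Eventually.of_forall fun x => sq_nonneg _) hg ?_
    filter_upwards [ae_restrict_mem measurableSet_Ioc] with x hx
    by_cases hxa : a < |f x|
    · have hxT : x ∈ T := subset_toMeasurable _ _ ⟨hx.1.le, hx.2, hxa⟩
      rw [Set.indicator_of_mem hxT]
      have h1 : (f x) ^ 2 ≤ b ^ 2 := by
        rw [← sq_abs (f x)]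
        exact pow_le_pow_left₀ (abs_nonneg _) (hb x) 2
      have := sq_nonneg a
      linarith
    · have h1 : (f x) ^ 2 ≤ a ^ 2 := by
        rw [← sq_abs (f x)]
        exact pow_le_pow_left₀ (abs_nonneg _) (not_lt.1 hxa) 2
      have h2 : 0 ≤ T.indicator (fun _ => b ^ 2) x := Set.indicator_nonneg (fun _ _ => sq_nonneg _) x
      linarith
  refine hle.trans ?_
  rw [integral_add hcst hind]
  have h1 : ∫ _ in Set.Ioc X (2 * X), a ^ 2 = X * a ^ 2 := by
    rw [setIntegral_const, measureReal_def, Real.volume_Ioc, ENNReal.toReal_ofReal (by linarith)]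
    simp only [smul_eq_mul]; ring
  have h2 : ∫ x in Set.Ioc X (2 * X), T.indicator (fun _ => b ^ 2) x ≤ b ^ 2 * e := by
    rw [setIntegral_indicator hTm, setIntegral_const, smul_eq_mul, mul_comm]
    refine mul_le_mul_of_nonneg_left ?_ (sq_nonneg _)
    rw [measureReal_def]
    have h3 : volume (Set.Ioc X (2 * X) ∩ T) ≤ ENNReal.ofReal e :=
      (measure_mono Set.inter_subset_right).trans hTv
    exact ENNReal.toReal_le_of_le_ofReal he h3
  rw [h1]
  linarith

/-- (1) For every `A` there is `C` such that for all real `X ≥ 16` and `3 ≤ H ≤ X` the set of the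
`x ∈ [X, 2X]` with `|M(x;H)| > C H log log X / log H` has measure at most `X / (log X)^A`.
(2) There is `C` such that `V(X;H) ≤ C H² (log log X / log H)²` for all `X ≥ 16`, `3 ≤ H ≤ X`. -/
theorem result :
    (∀ A : ℕ, ∃ C : ℝ, 0 < C ∧ ∀ X H : ℝ, 16 ≤ X → 3 ≤ H → H ≤ X →
      volume {x : ℝ | X ≤ x ∧ x ≤ 2 * X ∧
        C * H * (Real.log (Real.log X) / Real.log H) < |M x H|}
          ≤ ENNReal.ofReal (X / Real.log X ^ A)) ∧
    (∃ C : ℝ, 0 < C ∧ ∀ X H : ℝ, 16 ≤ X → 3 ≤ H → H ≤ X →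
      V X H ≤ C * H ^ 2 * (Real.log (Real.log X) / Real.log H) ^ 2) := by
  have hmain : ∀ A : ℕ, ∃ C : ℝ, 0 < C ∧ ∀ X H : ℝ, 16 ≤ X → 3 ≤ H → H ≤ X →
      volume {x : ℝ | X ≤ x ∧ x ≤ 2 * X ∧
        C * H * (Real.log (Real.log X) / Real.log H) < |M x H|}
          ≤ ENNReal.ofReal (X / Real.log X ^ A) :=
    Pool.Agent.H76.MU.finalx Pool.Agent.H97.VK.vk_class Pool.Agent.H76.MU.vk1
  refine ⟨hmain, ?_⟩
  obtain ⟨C, hC, h⟩ := hmain 2
  refine ⟨C ^ 2 + 4, by positivity, fun X H hX hH hHX => ?_⟩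
  have hX0 : (0 : ℝ) < X := by linarith
  have hlogH : 0 < Real.log H := Real.log_pos (by linarith)
  have hlogHX : Real.log H ≤ Real.log X := Real.log_le_log (by linarith) hHX
  have hlogX : 0 < Real.log X := hlogH.trans_le hlogHX
  -- `log X ≥ e`
  have hlogXe : Real.exp 1 ≤ Real.log X := by
    have h16 : Real.log 16 ≤ Real.log X := Real.log_le_log (by norm_num) hX
    have h16' : Real.log 16 = 4 * Real.log 2 := by
      rw [show (16 : ℝ) = 2 ^ 4 by norm_num, Real.log_pow]; norm_num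
    have := Real.log_two_gt_d9
    have := Real.exp_one_lt_d9
    linarith
  have hLL : 1 ≤ Real.log (Real.log X) := by
    have := Real.log_le_log (Real.exp_pos 1) hlogXe
    rwa [Real.log_exp] at this
  set r : ℝ := Real.log (Real.log X) / Real.log H with hr
  have hr0 : 0 < r := div_pos (by linarith) hlogH
  have hr1 : 1 / Real.log X ≤ r := by
    rw [hr, div_le_div_iff₀ hlogX hlogH]
    nlinarith
  have hms := mean_sq (fun x => M x H) X (C * H * r) (2 * H) (X / Real.log X ^ 2) hX0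
    (by positivity) (by positivity) (fun x => abs_M_le x H (by linarith)) (h X H hX hH hHX)
  have hr2 : 1 / Real.log X ^ 2 ≤ r ^ 2 := by
    have := pow_le_pow_left₀ (by positivity) hr1 2
    rwa [div_pow, one_pow] at this
  calc V X H ≤ (1 / X) * (X * (C * H * r) ^ 2 + (2 * H) ^ 2 * (X / Real.log X ^ 2)) := by
        unfold V
        exact mul_le_mul_of_nonneg_left hms (by positivity)
    _ = C ^ 2 * H ^ 2 * r ^ 2 + 4 * H ^ 2 * (1 / Real.log X ^ 2) := by
        field_simp
        ring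
    _ ≤ C ^ 2 * H ^ 2 * r ^ 2 + 4 * H ^ 2 * r ^ 2 := by gcongr
    _ = (C ^ 2 + 4) * H ^ 2 * r ^ 2 := by ring

end Pool.Agent.Results.MP_0575cc_nt.AlmostAllWindows
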