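import Pool.Agent.H15.TB1.M94

/-!
An unconditional lower bound of the predicted order of magnitude, on average over `X`, for the
variance of the Möbius function in short intervals.
-/

set_option autoImplicit false

namespace Pool.Agent.Results.MP_0575cc_nt.ConstantOrder

/-- `M x H` is the sum of `μ(n)` over the integers `n` with `|n - x| < H / 2`
(written exactly as in the frozen statement S15903). -/
noncomputable def M (x H : ℝ) : ℝ :=
  ∑ n ∈ (Finset.range (⌈x + H⌉₊ + 1)).filter (fun n : ℕ => |(n : ℝ) - x| < H / 2),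
    ((ArithmeticFunction.moebius n : ℤ) : ℝ)

/-- The variance `V(X;H) = (1/X) ∫_X^{2X} M(x;H)^2 dx`. -/
noncomputable def V (X H : ℝ) : ℝ := (1 / X) * ∫ x in X..2 * X, (M x H) ^ 2

/-- For every `κ > 0` there is `c > 0` such that for every `A > 0`, every sufficiently large `T` and
every `N` with `1 ≤ N ≤ T ^ A` the average of `V(X; H) / H`, `H = X / T`, over `X ∈ [N, N T^{1+κ}]`
with respect to `dX / X` is bounded below: `∫_N^{N T^{1+κ}} V(X; X/T) / (X/T) dX/X ≥ c log T`. -/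
theorem result : ∀ κ : ℝ, 0 < κ → ∃ c : ℝ, 0 < c ∧ ∀ A : ℝ, 0 < A →
    ∃ T₀ : ℝ, 1 < T₀ ∧ ∀ T : ℝ, T₀ ≤ T → ∀ N : ℝ, 1 ≤ N → N ≤ T ^ A →
      c * Real.log T ≤ ∫ X in N..N * T ^ (1 + κ), V X (X / T) / (X / T) / X := by
  intro κ hκ
  obtain ⟨c, hc, h⟩ := Pool.Agent.H14.CO.final κ hκ
  refine ⟨c, hc, fun A hA => ?_⟩
  obtain ⟨T₀, _, hT⟩ := h A hA
  exact ⟨max T₀ 2, lt_of_lt_of_le (by norm_num) (le_max_right _ _),
    fun T hTT N hN1 hN2 => (hT T ((le_max_left _ _).trans hTT) N hN1 hN2).1⟩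

end Pool.Agent.Results.MP_0575cc_nt.ConstantOrder
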