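import Pool.Agent.H43.PL.M23

/-!
Local Fourier uniformity of the Möbius function with a rate: for
`exp((log X)^(2/3+ε)) ≤ H ≤ X`, outside a set of `x ∈ [X, 2X]` of measure at most
`X / (log X)^A`, the sum of `μ(n) e(α n)` over the window of length `H` around `x` is at most
`H (log X)^(2/3+ε) / log H` for all real `α`; in particular the sum of `μ(n)` over the window has
this bound in all residue classes of all moduli at once.
-/

set_option autoImplicit false

namespace Pool.Agent.Results.MP_0575cc_nt.FourierUniformity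

open MeasureTheory

/-- The sum of `μ(n) e(α n)` over the integers `n` with `|n - x| < H / 2`
(the window sum of the frozen statement S15903 with an additive character). -/
noncomputable def M (x H α : ℝ) : ℂ :=
  ∑ n ∈ (Finset.range (⌈x + H⌉₊ + 1)).filter (fun n : ℕ => |(n : ℝ) - x| < H / 2),
    ((ArithmeticFunction.moebius n : ℤ) : ℂ) * Complex.exp (2 * Real.pi * (α * n) * Complex.I)

/-- The sum of `μ(n)` over the integers `n` with `|n - x| < H / 2` and `n ≡ a (mod q)`. -/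
noncomputable def Mq (x H : ℝ) (q a : ℕ) : ℝ :=
  ∑ n ∈ (Finset.range (⌈x + H⌉₊ + 1)).filter
    (fun n : ℕ => |(n : ℝ) - x| < H / 2 ∧ n % q = a % q), ((ArithmeticFunction.moebius n : ℤ) : ℝ)

theorem M_eq (x H α : ℝ) : M x H α = Pool.Agent.H43.LM.Mw Pool.Agent.H43.LM.mu x H α := by
  unfold M Pool.Agent.H43.LM.Mw Pool.Agent.H43.LM.Win
  refine Finset.sum_congr rfl fun n _ => ?_
  unfold Pool.Agent.H43.LM.mu Pool.Agent.H91.PK.ee
  congr 1
  congr 1
  push_cast
  ring

/-- The indicator function of a residue class by additive characters. -/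
theorem ind_eq (q a n : ℕ) (hq : 1 ≤ q) :
    (if n % q = a % q then (1 : ℂ) else 0) = (1 / q) * ∑ b ∈ Finset.range q,
      Complex.exp (2 * Real.pi * (((b : ℝ) / q : ℝ) * n) * Complex.I) *
        Complex.exp (-(2 * Real.pi * (((b : ℝ) / q : ℝ) * a) * Complex.I)) := by
  have hq0 : (q : ℂ) ≠ 0 := by
    have : q ≠ 0 := by omega
    exact_mod_cast this
  set ζ : ℂ := Complex.exp (2 * Real.pi * Complex.I / q) with hζ
  have hprim : IsPrimitiveRoot ζ q := Complex.isPrimitiveRoot_exp q (by omega)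
  have hterm : ∀ b ∈ Finset.range q,
      Complex.exp (2 * Real.pi * (((b : ℝ) / q : ℝ) * n) * Complex.I) *
        Complex.exp (-(2 * Real.pi * (((b : ℝ) / q : ℝ) * a) * Complex.I))
      = (ζ ^ ((n : ℤ) - a)) ^ b := by
    intro b _
    rw [hζ, ← Complex.exp_add, ← Complex.exp_int_mul, ← Complex.exp_nat_mul]
    congr 1
    push_cast
    field_simp
    ring
  rw [Finset.sum_congr rfl hterm]
  by_cases h : n % q = a % q
  · rw [if_pos h]
    have h1 : ζ ^ ((n : ℤ) - a) = 1 := by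
      rw [hprim.zpow_eq_one_iff_dvd]
      have h0 : (a : ℤ) ≡ n [ZMOD q] := Int.natCast_modEq_iff.2 (Eq.symm h)
      exact Int.ModEq.dvd h0
    rw [h1]
    simp [hq0]
  · rw [if_neg h]
    have h1 : ζ ^ ((n : ℤ) - a) ≠ 1 := by
      rw [Ne, hprim.zpow_eq_one_iff_dvd]
      intro hd
      apply h
      have h2 : (a : ℤ) ≡ n [ZMOD q] := (Int.modEq_iff_dvd).2 hd
      unfold Int.ModEq at h2
      exact_mod_cast h2.symm
    have h2 : (ζ ^ ((n : ℤ) - a)) ^ q = 1 := by
      rw [← zpow_natCast (ζ ^ ((n : ℤ) - a)) q, ← zpow_mul, mul_comm, zpow_mul, zpow_natCast, hprim.pow_eq_one, one_zpow]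
    have h3 := geom_sum_eq h1 q
    rw [h3, h2]
    simp

theorem Mq_le (x H T : ℝ) (q a : ℕ) (hq : 1 ≤ q) (h : ∀ α : ℝ, ‖M x H α‖ ≤ T) : |Mq x H q a| ≤ T := by
  have hq0 : (0 : ℝ) < q := by
    have : 0 < q := by omega
    exact_mod_cast this
  have h1 : ((Mq x H q a : ℝ) : ℂ) = (1 / q) * ∑ b ∈ Finset.range q,
      M x H ((b : ℝ) / q) * Complex.exp (-(2 * Real.pi * (((b : ℝ) / q : ℝ) * a) * Complex.I)) := by
    unfold Mq M
    rw [← Finset.filter_filter, Finset.sum_filter, Complex.ofReal_sum]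
    simp only [Finset.sum_mul]
    rw [Finset.sum_comm, Finset.mul_sum]
    refine Finset.sum_congr rfl fun n _ => ?_
    have h2 := ind_eq q a n hq
    have h3 : (((if n % q = a % q then ((ArithmeticFunction.moebius n : ℤ) : ℝ) else 0 : ℝ)) : ℂ)
        = ((ArithmeticFunction.moebius n : ℤ) : ℂ) * (if n % q = a % q then (1 : ℂ) else 0) := by
      split_ifs
      · push_cast
        ring
      · push_cast
        ring
    rw [h3, h2, Finset.mul_sum, Finset.mul_sum, Finset.mul_sum]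
    refine Finset.sum_congr rfl fun b _ => ?_
    ring
  have h2 : |Mq x H q a| = ‖((Mq x H q a : ℝ) : ℂ)‖ := by
    rw [Complex.norm_real, Real.norm_eq_abs]
  rw [h2, h1, norm_mul]
  have h3 : ‖∑ b ∈ Finset.range q,
      M x H ((b : ℝ) / q) * Complex.exp (-(2 * Real.pi * (((b : ℝ) / q : ℝ) * a) * Complex.I))‖ ≤ q * T := by
    refine (norm_sum_le _ _).trans ?_
    have h4 : ∀ b ∈ Finset.range q, ‖M x H ((b : ℝ) / q) *
        Complex.exp (-(2 * Real.pi * (((b : ℝ) / q : ℝ) * a) * Complex.I))‖ ≤ T := by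
      intro b _
      rw [norm_mul]
      have h5 : ‖Complex.exp (-(2 * Real.pi * (((b : ℝ) / q : ℝ) * a) * Complex.I))‖ = 1 := by
        have : (-(2 * Real.pi * (((b : ℝ) / q : ℝ) * a) * Complex.I) : ℂ) =
            ((-(2 * Real.pi * (((b : ℝ) / q) * a)) : ℝ) : ℂ) * Complex.I := by
          push_cast
          ring
        rw [this, Complex.norm_exp_ofReal_mul_I]
      rw [h5, mul_one]
      exact h _
    refine (Finset.sum_le_sum h4).trans (le_of_eq ?_)
    rw [Finset.sum_const, Finset.card_range, nsmul_eq_mul]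
  have h6 : ‖(1 / q : ℂ)‖ = 1 / q := by
    rw [norm_div, norm_one, Complex.norm_natCast]
  rw [h6]
  calc 1 / (q : ℝ) * _ ≤ 1 / q * (q * T) := mul_le_mul_of_nonneg_left h3 (by positivity)
    _ = T := by
        field_simp

theorem result : ∀ ε : ℝ, 0 < ε → ∀ A : ℕ, ∃ X0 : ℝ, ∀ X H : ℝ, X0 ≤ X →
    Real.exp (Real.log X ^ (2 / 3 + ε)) ≤ H → H ≤ X →
    volume {x : ℝ | x ∈ Set.Icc X (2 * X) ∧ ∃ α : ℝ,
      H * Real.log X ^ (2 / 3 + ε) / Real.log H < ‖M x H α‖} ≤ ENNReal.ofReal (X / Real.log X ^ A) ∧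
    volume {x : ℝ | x ∈ Set.Icc X (2 * X) ∧ ∃ q a : ℕ, 1 ≤ q ∧
      H * Real.log X ^ (2 / 3 + ε) / Real.log H < |Mq x H q a|} ≤ ENNReal.ofReal (X / Real.log X ^ A) := by
  intro ε hε A
  obtain ⟨X0, hX0⟩ := Pool.Agent.H43.LM.lm_main ε hε A
  refine ⟨X0, fun X H hX hH hHX => ?_⟩
  have h1 : volume {x : ℝ | x ∈ Set.Icc X (2 * X) ∧ ∃ α : ℝ,
      H * Real.log X ^ (2 / 3 + ε) / Real.log H < ‖M x H α‖} ≤ ENNReal.ofReal (X / Real.log X ^ A) := by
    simp only [M_eq]
    exact hX0 X H hX hH hHX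
  refine ⟨h1, (measure_mono ?_).trans h1⟩
  rintro x ⟨hx, q, a, hq, hqa⟩
  refine ⟨hx, ?_⟩
  by_contra hcon
  push Not at hcon
  exact absurd hqa (not_lt.2 (Mq_le x H _ q a hq hcon))

end Pool.Agent.Results.MP_0575cc_nt.FourierUniformity
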