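import Pool.Agent.H43.PS.H43.CH.ChainC

/-!
The Good-Churchhouse law (variance, and Gaussian distribution) for the sums of `μ` along sparse
windows of `K = o((log H / loglog X)^2)` terms: progressions with almost every difference in any
interval of length `H`, and almost all tuples of shifts in `[1, H]`.
-/

set_option autoImplicit false

namespace Pool.Agent.Results.MP_0575cc_nt.SparseWindows

open Finset ProbabilityTheory

/-- The Möbius function with real values. -/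
noncomputable def mu (n : ℕ) : ℝ := ((ArithmeticFunction.moebius n : ℤ) : ℝ)

/-- The number of terms is at most `(log H / loglog X)^2 / N` and at most `(log X)^(2 - δ)`. -/
def Sparse (N X H K : ℕ) (δ : ℝ) : Prop :=
  (N : ℝ) * K ≤ (Real.log H / Real.log (Real.log X)) ^ 2 ∧ (K : ℝ) ≤ Real.log X ^ (2 - δ)

/-- The `k`-tuples of integers of `[1, H]`. -/
def Tup (k H : ℕ) : Finset (Fin k → ℕ) := Fintype.piFinset (fun _ : Fin k => Icc 1 H)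

/-- The mean square of the sum of `c_j μ(n + a_j)`, `j < K`, over `X < n ≤ 2X`. -/
noncomputable def MS (X K : ℕ) (a : Fin K → ℕ) (c : Fin K → ℂ) : ℝ :=
  (1 / (X : ℝ)) * ∑ n ∈ Ioc X (2 * X), ‖∑ j, c j * ((mu (n + a j) : ℝ) : ℂ)‖ ^ 2

/-- The distribution function of `(μ(n + h_1) + ... + μ(n + h_K)) / √(K / ζ(2))` for `n` uniformly
distributed on the integers of `(X, 2X]` (`1 / ζ(2) = 6 / π²`). -/
noncomputable def DF (X K : ℕ) (h : Fin K → ℕ) (u : ℝ) : ℝ :=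
  (((Ioc X (2 * X)).filter (fun n => ∑ i, mu (n + h i) ≤ u * Real.sqrt (6 * K / Real.pi ^ 2))).card : ℝ) / X

open Classical in
theorem result (δ ε : ℝ) (hδ : 0 < δ) (hδ1 : δ < 1) (hε : 0 < ε) (hε1 : ε < 1) :
    (∀ η : ℝ, 0 < η → ∃ N : ℕ, ∀ X H q0 : ℕ, N ≤ X → 2 ≤ H → ((q0 + H : ℕ) : ℝ) ≤ (X : ℝ) ^ (1 - ε) →
      ∃ E : Finset ℕ, (E.card : ℝ) ≤ η * H ∧ ∀ q ∈ Ioc q0 (q0 + H), q ∉ E →
        ∀ (K : ℕ) (c : Fin K → ℂ), Sparse N X H K δ →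
          |MS X K (fun j => q * j) c - 6 / Real.pi ^ 2 * ∑ j, ‖c j‖ ^ 2| ≤ η * ∑ j, ‖c j‖ ^ 2) ∧
    (∀ η : ℝ, 0 < η → ∃ N : ℕ, ∀ X H K : ℕ, N ≤ X → 2 ≤ H → (H : ℝ) ≤ (X : ℝ) ^ (1 - ε) → 1 ≤ K →
      Sparse N X H K δ →
        (((Tup K H).filter (fun h => ∃ c : Fin K → ℂ, (∀ i, ‖c i‖ ≤ 1) ∧
          η * K < |MS X K h c - 6 / Real.pi ^ 2 * ∑ i, ‖c i‖ ^ 2|)).card : ℝ) ≤ η * (H : ℝ) ^ K) ∧
    (∀ η : ℝ, 0 < η → ∃ N : ℕ, ∀ X H K : ℕ, N ≤ X → 2 ≤ H → (H : ℝ) ≤ (X : ℝ) ^ (1 - ε) → N ≤ K →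
      Sparse N X H K δ →
        (((Tup K H).filter (fun h => ∃ u : ℝ,
          η < |DF X K h u - (gaussianReal 0 1).real (Set.Iic u)|)).card : ℝ) ≤ η * (H : ℝ) ^ K) := by
  refine ⟨?_, ?_, ?_⟩
  · intro η hη
    obtain ⟨N, h0⟩ := Pool.Agent.H43.CH.cd3 δ ε η hδ hδ1 hε hε1 hη
    refine ⟨N, fun X H q0 hX h1 h2 => ?_⟩
    obtain ⟨E, hE, h3⟩ := h0 X hX H q0 h1 h2
    refine ⟨E, hE, fun q hq hqE K c hK => ?_⟩
    have h4 := h3 q hq hqE K (fun j => if h : j < K then c ⟨j, h⟩ else 0) hK.1 hK.2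
    have e1 : ∑ j ∈ range K, ‖(if h : j < K then c ⟨j, h⟩ else 0)‖ ^ 2 = ∑ j : Fin K, ‖c j‖ ^ 2 := by
      rw [← Fin.sum_univ_eq_sum_range (fun j => ‖(if h : j < K then c ⟨j, h⟩ else 0)‖ ^ 2)]
      refine sum_congr rfl fun j _ => ?_
      simp only [Fin.is_lt, dite_true, Fin.eta]
    have e2 : (1 / (X : ℝ)) * ∑ n ∈ Ioc X (2 * X), ‖∑ j ∈ range K, (if h : j < K then c ⟨j, h⟩ else 0) *
        ((Pool.Agent.H43.LM.mu (n + q * j) : ℝ) : ℂ)‖ ^ 2 = MS X K (fun j => q * j) c := by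
      unfold MS
      congr 1
      refine sum_congr rfl fun n _ => ?_
      congr 2
      rw [← Fin.sum_univ_eq_sum_range (fun j => (if h : j < K then c ⟨j, h⟩ else 0) *
        ((Pool.Agent.H43.LM.mu (n + q * j) : ℝ) : ℂ))]
      refine sum_congr rfl fun j _ => ?_
      simp only [Fin.is_lt, dite_true, Fin.eta]
      rfl
    rw [e1, e2] at h4
    exact h4
  · intro η hη
    obtain ⟨N, h0⟩ := Pool.Agent.H43.CH.cd4 δ ε η hδ hδ1 hε hε1 hη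
    exact ⟨N, fun X H K hX h1 h2 h3 h4 => h0 X hX H K h1 h2 h3 h4.1 h4.2⟩
  · intro η hη
    obtain ⟨N, h0⟩ := Pool.Agent.H43.CH.cd5 δ ε η hδ hδ1 hε hε1 hη
    exact ⟨N, fun X H K hX h1 h2 h3 h4 => h0 X hX H K h1 h2 h3 h4.1 h4.2⟩

end Pool.Agent.Results.MP_0575cc_nt.SparseWindows
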